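import Mathlib
import Pool.Agent.R651.CosetLayers

/-!
# The coset counting procedure always terminates

For every subgroup `H` of finite index in the free group of rank two and every `y`, the set `C_i` is
the `i`-th layer of the breadth first search from `y H` in the bipartite double cover of the coset
graph. So the procedure terminates. Since the coset graph is regular, the inner layers have at least
two elements, which gives explicit bounds for the number of steps.
-/

set_option autoImplicit false

namespace Pool.Agent.Results.MP_544047_al.AlwaysTerminates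

open Pool.Agent.R651

/-- The free group on `a = of 0` and `b = of 1`. -/
abbrev F : Type := FreeGroup (Fin 2)

/-- `Ξ = {a, b, a⁻¹, b⁻¹}` -/
def Xi : Finset F :=
  {FreeGroup.of 0, FreeGroup.of 1, (FreeGroup.of 0)⁻¹, (FreeGroup.of 1)⁻¹}

/-- The sets `C_i` of left cosets: `C_0 = {yH}` and `C_{i+1} = {h x H : h ∈ Ξ, xH ∈ C_i} \ C_{i-1}`,
where `C_{-1}` is empty. -/
def C (H : Subgroup F) (y : F) : ℕ → Set (F ⧸ H)
  | 0 => {(y : F ⧸ H)}
  | 1 => {c | ∃ h ∈ Xi, ∃ x ∈ ({(y : F ⧸ H)} : Set (F ⧸ H)), c = h • x}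
  | (i + 2) => {c | ∃ h ∈ Xi, ∃ x ∈ C H y (i + 1), c = h • x} \ C H y i

theorem Xi_symm : ∀ h ∈ Xi, h⁻¹ ∈ Xi := by
  intro h hh
  simp only [Xi, Finset.mem_insert, Finset.mem_singleton] at hh ⊢
  rcases hh with rfl | rfl | rfl | rfl <;> simp

theorem C_eq (H : Subgroup F) (y : F) :
    ∀ i, C H y i = layer (Xi : Set F) (y : F ⧸ H) i ∧
      C H y (i + 1) = layer (Xi : Set F) (y : F ⧸ H) (i + 1) := by
  intro i
  induction i with
  | zero =>
    refine ⟨rfl, ?_⟩
    ext c
    constructor
    · rintro ⟨h, hh, x, hx, rfl⟩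
      obtain rfl : x = _ := hx
      exact ⟨h, hh, rfl⟩
    · rintro ⟨h, hh, rfl⟩
      exact ⟨h, hh, _, rfl, rfl⟩
  | succ i ih =>
    refine ⟨ih.2, ?_⟩
    show {c | ∃ h ∈ Xi, ∃ x ∈ C H y (i + 1), c = h • x} \ C H y i = _
    rw [ih.1, ih.2]
    rfl

/-- The parity of the length of the elements of a free group, as a homomorphism. -/
def par : F →* Multiplicative (ZMod 2) := FreeGroup.lift fun _ => Multiplicative.ofAdd 1

theorem par_eq (g : F) : par g = Multiplicative.ofAdd ((g.norm : ℕ) : ZMod 2) := by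
  have h : ∀ L : List (Fin 2 × Bool), par (FreeGroup.mk L) =
      Multiplicative.ofAdd ((L.length : ℕ) : ZMod 2) := by
    intro L
    induction L with
    | nil => rfl
    | cons x L ih =>
      have : FreeGroup.mk (x :: L) = FreeGroup.mk [x] * FreeGroup.mk L := by
        rw [FreeGroup.mul_mk]; rfl
      rw [this, map_mul, ih, List.length_cons]
      have hx : par (FreeGroup.mk [x]) = Multiplicative.ofAdd 1 := by
        obtain ⟨i, b⟩ := x
        cases b
        · show FreeGroup.lift _ (FreeGroup.mk [(i, false)]) = _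
          rw [FreeGroup.lift_mk]
          rfl
        · show FreeGroup.lift _ (FreeGroup.mk [(i, true)]) = _
          rw [FreeGroup.lift_mk]
          rfl
      rw [hx, ← ofAdd_add]
      congr 1
      push_cast
      ring
  conv_lhs => rw [← FreeGroup.mk_toWord (x := g)]
  exact h _

theorem par_Xi : ∀ h ∈ Xi, par h = Multiplicative.ofAdd 1 := by
  intro h hh
  simp only [Xi, Finset.mem_insert, Finset.mem_singleton] at hh
  rcases hh with rfl | rfl | rfl | rfl
  · exact FreeGroup.lift_apply_of
  · exact FreeGroup.lift_apply_of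
  · rw [map_inv]
    show (FreeGroup.lift _ _)⁻¹ = _
    rw [FreeGroup.lift_apply_of]
    rfl
  · rw [map_inv]
    show (FreeGroup.lift _ _)⁻¹ = _
    rw [FreeGroup.lift_apply_of]
    rfl

theorem par_layer (H : Subgroup F) (hH : ∀ g ∈ H, Even g.norm) (y : F) :
    ∀ (i : ℕ) (g : F), (g : F ⧸ H) ∈ layer (Xi : Set F) (y : F ⧸ H) i →
      par g = par y * Multiplicative.ofAdd ((i : ℕ) : ZMod 2) := by
  have hpar : ∀ g g' : F, (g : F ⧸ H) = g' → par g = par g' := by
    intro g g' h
    rw [QuotientGroup.eq] at h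
    have h1 := hH _ h
    have h2 : par (g⁻¹ * g') = 1 := by
      rw [par_eq, (ZMod.natCast_eq_zero_iff_even).2 h1]
      rfl
    rw [map_mul, map_inv, inv_mul_eq_one] at h2
    exact h2
  intro i
  induction i with
  | zero =>
    intro g hg
    rw [hpar g y hg]
    simp
  | succ i ih =>
    intro g hg
    obtain ⟨h, hh, x, hx, hgx⟩ := exists_prev hg
    obtain ⟨x, rfl⟩ := QuotientGroup.mk_surjective x
    have h1 : (g : F ⧸ H) = ((h * x : F) : F ⧸ H) := hgx
    rw [hpar _ _ h1, map_mul, ih x hx, par_Xi h (Finset.mem_coe.1 hh)]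
    rw [mul_left_comm, ← ofAdd_add]
    push_cast
    rw [add_comm (1 : ZMod 2)]

/-- **Main result.** For every subgroup `H` of finite index of the free group of rank two and every
`y` the procedure terminates: `C_i` is empty for all `i > [F : H]`. If `H` contains no element of odd
length, then `C_i` is empty already for all `i > [F : H] / 2`. -/
theorem result (H : Subgroup F) (hfin : H.FiniteIndex) (y : F) :
    (∃ i, 1 ≤ i ∧ C H y i = ∅) ∧ (∀ i, H.index < i → C H y i = ∅) ∧
      ((∀ g ∈ H, Even g.norm) → ∀ i, H.index < 2 * i → C H y i = ∅) := by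
  have hF : Finite (F ⧸ H) := inferInstance
  have h1 : ∀ i, H.index < i → C H y i = ∅ := by
    intro i hi
    rw [(C_eq H y i).1]
    exact layer_eq_empty Xi Xi_symm _ i hi
  refine ⟨⟨H.index + 1, by omega, h1 _ (by omega)⟩, h1, fun hH i hi => ?_⟩
  rw [(C_eq H y i).1]
  refine layer_eq_empty_of_bipartite Xi Xi_symm _ i ?_ hi
  intro i j x hi hj
  obtain ⟨x, rfl⟩ := QuotientGroup.mk_surjective x
  have h2 := par_layer H hH y i x hi
  rw [par_layer H hH y j x hj] at h2
  have h3 : ((j : ℕ) : ZMod 2) = ((i : ℕ) : ZMod 2) :=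
    Multiplicative.ofAdd.injective (mul_left_cancel h2)
  rw [ZMod.natCast_eq_natCast_iff'] at h3
  rw [Nat.even_iff, Nat.even_iff, h3]

end Pool.Agent.Results.MP_544047_al.AlwaysTerminates
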